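import Mathlib

/-! Differentiation of a vanishing first moment along a curve of rotations. -/

namespace Pool.Agent.MP_3ee8cb_gt.DZJ

open Set MeasureTheory Filter Topology Metric
open scoped RealInnerProductSpace

variable {E W : Type} [NormedAddCommGroup E] [NormedSpace ℝ E] [NormedAddCommGroup W]
  [InnerProductSpace ℝ W] [FiniteDimensional ℝ W]

theorem rot_bd {O : ℝ → W ≃ₗᵢ[ℝ] W} {A : W → W} (h0 : ∀ a, O 0 a = a)
    (hO : ∀ a, HasDerivAt (fun s => O s a) (A a) 0) :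
    ∃ C : ℝ, 0 ≤ C ∧ ∀ᶠ s in 𝓝 (0 : ℝ), ∀ w, ‖O s w - w‖ ≤ C * |s| * ‖w‖ := by
  let b := stdOrthonormalBasis ℝ W
  choose c c0 hc using fun i => (hO (b i)).isBigO_sub.exists_nonneg
  refine ⟨∑ i, c i, Finset.sum_nonneg fun i _ => c0 i, ?_⟩
  filter_upwards [eventually_all.2 fun i => (hc i).bound] with s hs w
  have e : O s w - w = ∑ i, ⟪b i, w⟫ • (O s (b i) - b i) := by
    simp only [smul_sub, Finset.sum_sub_distrib, ← map_smul, ← map_sum, b.sum_repr']
  rw [e, Finset.sum_mul, Finset.sum_mul]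
  refine norm_sum_le_of_le _ fun i _ => ?_
  have h1 := hs i
  have h2 := abs_real_inner_le_norm (b i) w
  rw [h0, sub_zero, Real.norm_eq_abs] at h1
  rw [b.orthonormal.1 i, one_mul] at h2
  rw [norm_smul, Real.norm_eq_abs, mul_comm]
  exact mul_le_mul h1 h2 (abs_nonneg _) (mul_nonneg (c0 i) (abs_nonneg _))

omit [FiniteDimensional ℝ W] in
theorem curve (x e : E) {O : ℝ → W ≃ₗᵢ[ℝ] W} {A : W → W}
    (hO : ∀ a, HasDerivAt (fun s => O s a) (A a) 0) (w : W) :
    HasDerivAt (fun s : ℝ => (x + s • e, O s w)) (e, A w) 0 := by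
  have h := ((hasDerivAt_id (0 : ℝ)).smul_const e).const_add x
  rw [one_smul] at h
  exact h.prodMk (hO w)

variable [FiniteDimensional ℝ E] [MeasurableSpace W] [BorelSpace W]

theorem dom {f : E × W → ℝ} (hf : LocallyLipschitzOn {q | q.2 ≠ 0} f) (x e : E)
    (μ : Measure W) [IsFiniteMeasure μ] (hμ : ∀ᵐ w ∂μ, 1 ≤ ‖w‖ ∧ ‖w‖ ≤ 2)
    (inv : ∀ T : W ≃ₗᵢ[ℝ] W, MeasurePreserving T μ μ) {O : ℝ → W ≃ₗᵢ[ℝ] W} {A : W →L[ℝ] W}
    (h0 : ∀ a, O 0 a = a) (hO : ∀ a, HasDerivAt (fun s => O s a) (A a) 0)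
    (hz : ∀ y, ∫ w, f (y, w) • ‖w‖⁻¹ • w ∂μ = 0) (hd : ∀ᵐ w ∂μ, DifferentiableAt ℝ f (x, w)) :
    Integrable (fun w => fderiv ℝ f (x, w) (e, A w) • ‖w‖⁻¹ • w) μ ∧
      ∫ w, fderiv ℝ f (x, w) (e, A w) • ‖w‖⁻¹ • w ∂μ = 0 := by
  have : ProperSpace E := FiniteDimensional.proper_real E
  have : ProperSpace W := FiniteDimensional.proper_real W
  borelize E
  set S : Set W := closedBall 0 2 ∩ {w | 1 ≤ ‖w‖} with hS
  have cS : IsCompact S := (isCompact_closedBall _ _).inter_right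
    (isClosed_le continuous_const continuous_norm)
  have mS : ∀ w, w ∈ S ↔ 1 ≤ ‖w‖ ∧ ‖w‖ ≤ 2 := fun w => by simp [hS, and_comm]
  have nS : ∀ w ∈ S, w ≠ 0 := fun w hw => norm_pos_iff.1 (one_pos.trans_le ((mS w).1 hw).1)
  have aS : ∀ᵐ w ∂μ, w ∈ S := hμ.mono fun w => (mS w).2
  have OS : ∀ s, ∀ w ∈ S, O s w ∈ S := fun s w hw => by
    rw [mS, LinearIsometryEquiv.norm_map]
    exact (mS w).1 hw
  obtain ⟨K, hK⟩ := (hf.mono (s := closedBall x ‖e‖ ×ˢ S) fun q hq => nS _ hq.2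
    ).exists_lipschitzOnWith_of_compact ((isCompact_closedBall _ _).prod cS)
  obtain ⟨C, C0, hC⟩ := rot_bd h0 hO
  have n1 : ∀ w ∈ S, ‖‖w‖⁻¹ • w‖ = 1 := fun w hw => norm_smul_inv_norm (𝕜 := ℝ) (nS w hw)
  have co : ∀ s : ℝ, ContinuousOn (fun w => f (x + s • e, O s w) • ‖w‖⁻¹ • w) S := fun s =>
    (hf.continuousOn.comp (continuous_const.prodMk (O s).continuous).continuousOn
      fun w hw => nS _ (OS s w hw)).smul ((continuous_norm.continuousOn.inv₀
        fun w hw => norm_ne_zero_iff.2 (nS w hw)).smul continuousOn_id)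
  have it : ∀ s : ℝ, Integrable (fun w => f (x + s • e, O s w) • ‖w‖⁻¹ • w) μ := fun s => by
    rw [← Measure.restrict_eq_self_of_ae_mem aS]
    exact (co s).integrableOn_compact cS
  have md : Measurable fun w => fderiv ℝ f (x, w) (e, A w) :=
    isBoundedBilinearMap_apply.continuous.measurable.comp
      (((measurable_fderiv ℝ f).comp measurable_prodMk_left).prodMk
        (measurable_const.prodMk A.continuous.measurable))
  have mD : AEStronglyMeasurable (fun w => fderiv ℝ f (x, w) (e, A w) • ‖w‖⁻¹ • w) μ :=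
    (md.smul (measurable_norm.inv.smul measurable_id)).aestronglyMeasurable
  set L : W →L[ℝ] ℝ →L[ℝ] W := ContinuousLinearMap.smulRightL ℝ ℝ W 1
  have key := hasFDerivAt_integral_of_dominated_loc_of_lip' (𝕜 := ℝ) (μ := μ) (x₀ := (0 : ℝ))
    (F := fun s w => f (x + s • e, O s w) • ‖w‖⁻¹ • w)
    (F' := fun w => L (fderiv ℝ f (x, w) (e, A w) • ‖w‖⁻¹ • w))
    (bound := fun _ => K * (‖e‖ + C * 2)) (inter_mem hC (closedBall_mem_nhds 0 one_pos))
    (fun s _ => (it s).1) (it 0) (L.continuous.comp_aestronglyMeasurable mD)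
    (aS.mono fun w hw s hs => by
      have s1 : |s| ≤ 1 := by simpa using hs.2
      have m1 : ∀ r : ℝ, |r| ≤ 1 → (x + r • e, O r w) ∈ closedBall x ‖e‖ ×ˢ S := fun r hr =>
        ⟨by
          rw [mem_closedBall, dist_eq_norm, add_sub_cancel_left, norm_smul, Real.norm_eq_abs]
          exact mul_le_of_le_one_left (norm_nonneg _) hr, OS r w hw⟩
      have h1 := hK.norm_sub_le (m1 s s1) (m1 0 (by simp))
      rw [← sub_smul, norm_smul, n1 w hw, mul_one, sub_zero, mul_assoc]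
      refine h1.trans (mul_le_mul_of_nonneg_left ?_ K.2)
      have h2 := hs.1 w
      have h3 := mul_le_mul_of_nonneg_left ((mS w).1 hw).2 (mul_nonneg C0 (abs_nonneg s))
      have h4 := mul_nonneg (abs_nonneg s) (norm_nonneg e)
      have h5 := mul_nonneg C0 (abs_nonneg s)
      rw [Prod.mk_sub_mk, Prod.norm_mk, h0, zero_smul, add_zero, add_sub_cancel_left, norm_smul,
        Real.norm_eq_abs]
      exact max_le (by nlinarith) (by nlinarith))
    (integrable_const _) (hd.mono fun w hw => by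
      have h1 : HasFDerivAt f (fderiv ℝ f (x, w)) (x + (0 : ℝ) • e, O 0 w) := by
        rw [zero_smul, add_zero, h0]
        exact hw.hasFDerivAt
      exact ((h1.comp_hasDerivAt (0 : ℝ) (curve x e hO w)).smul_const _).hasFDerivAt)
  have z : ∀ s : ℝ, ∫ w, f (x + s • e, O s w) • ‖w‖⁻¹ • w ∂μ = 0 := fun s => by
    have h1 := (inv (O s)).integral_comp (O s).toHomeomorph.measurableEmbedding
      fun w => f (x + s • e, w) • ‖w‖⁻¹ • w
    apply (O s).injective
    rw [map_zero, ← hz (x + s • e), ← h1]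
    refine ((O s).toLinearIsometry.integral_comp_comm _).symm.trans ?_
    simp
  simp only [z] at key
  have i1 : Integrable (fun w => fderiv ℝ f (x, w) (e, A w) • ‖w‖⁻¹ • w) μ := by
    have := key.1.apply_continuousLinearMap 1
    simpa [L] using this
  refine ⟨i1, ?_⟩
  have h2 := key.2.unique (hasFDerivAt_const (0 : W) (0 : ℝ))
  rw [L.integral_comp_comm i1] at h2
  simpa [L] using congrArg (· 1) h2

end Pool.Agent.MP_3ee8cb_gt.DZJ
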