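import Pool.Agent.MP_3ee8cb_gt.DN.Defs
import Pool.Agent.MP_3ee8cb_gt.D3LM.Lip
import Pool.Agent.MP_3ee8cb_gt.DZJ.Dom

/-! The first order information at almost every point of the barycentre map. -/

namespace Pool.Agent.MP_3ee8cb_gt.DZJ

open Set MeasureTheory Filter Topology Metric DN
open scoped RealInnerProductSpace

theorem touch {φ ψ : ℝ → ℝ} {a b N : ℝ} (hφ : HasDerivAt φ a 0) (hψ : HasDerivAt ψ b 0)
    (h0 : φ 0 = ψ 0) (h : ∀ η : ℝ, 0 < η → ∀ᶠ s in 𝓝 (0 : ℝ), ψ s - (N + η) * |s| ≤ φ s) :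
    a ≤ b + N := by
  refine le_of_forall_pos_le_add fun η hη => ?_
  have h1 := (hφ.sub hψ).tendsto_slope_zero_left
  refine sub_le_iff_le_add'.1 (le_of_tendsto h1 ?_) |>.trans (add_assoc b N η).ge
  filter_upwards [nhdsWithin_le_nhds (h η hη), self_mem_nhdsWithin] with s hs (s0 : s < 0)
  rw [abs_of_neg s0] at hs
  simp only [Pi.sub_apply, zero_add, h0, sub_self, sub_zero, smul_eq_mul]
  rw [← div_eq_inv_mul, div_le_iff_of_neg s0]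
  linarith

variable [Dim]

/-- `Φ` touches `U` from below at `z` and has horizontal derivative `-K`. -/
def Low (m : MF) (U Φ : V × V → ℝ) (z : V × V) (K : V) : Prop :=
  DifferentiableAt ℝ Φ z ∧ Φ z = U z ∧ (∀ᶠ z' in 𝓝 z, ‖z'.2‖ = 1 → Φ z' ≤ U z') ∧
    ∀ ξ, m.ver z ξ = 0 → fderiv ℝ Φ z ξ = -⟪K, m.hor z ξ⟫

theorem ana {m : MF} (ok : m.OK) (jc : m.Jac) (μ : Measure V) [IsFiniteMeasure μ]
    (ac : μ ≪ volume) (hμ : ∀ᵐ w ∂μ, 1 ≤ ‖w‖ ∧ ‖w‖ ≤ 2)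
    (inv : ∀ T : V ≃ₗᵢ[ℝ] V, MeasurePreserving T μ μ) {d : V → V → ℝ} {N : V → V → ℝ}
    (hd : ∀ x e (η : ℝ), 0 < η → ∀ᶠ s in 𝓝 (0 : ℝ), d x (x + s • e) ≤ (N x e + η) * |s|)
    {u : V → V × V → ℝ} {F : V → V} (hF : LocallyLipschitz F)
    (hu : LocallyLipschitzOn {q | q.2 ≠ 0} fun q : V × V => u q.1 (F q.1, ‖q.2‖⁻¹ • q.2))
    (mov : ∀ x x' (z : V × V), ‖z.2‖ = 1 → u x z - d x x' ≤ u x' z)
    (hz : ∀ x, ∫ w, u x (F x, ‖w‖⁻¹ • w) • ‖w‖⁻¹ • w ∂μ = 0) :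
    ∀ᵐ x : V, DifferentiableAt ℝ F x ∧ ∃ l : V → V →L[ℝ] ℝ,
      (∀ e, Integrable (fun w => l w e • ‖w‖⁻¹ • w) μ ∧ ∫ w, l w e • ‖w‖⁻¹ • w ∂μ = 0) ∧
      ∀ᵐ w ∂μ, ∀ Φ K, Low m (u x) Φ (F x, ‖w‖⁻¹ • w) K →
        ∀ e, l w e ≤ N x e - ⟪K, m.S (F x) (fderiv ℝ F x e)⟫ := by
  set f : V × V → ℝ := fun q => u q.1 (F q.1, ‖q.2‖⁻¹ • q.2) with hf
  have r1 := D3LM.ae_diff (volume : Measure V) isOpen_univ hF.locallyLipschitzOn
  have r2 := Measure.ae_ae_of_ae_prod (D3LM.ae_diff ((volume : Measure V).prod volume)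
    (isOpen_ne.preimage continuous_snd) hu)
  filter_upwards [r1, r2] with x h1 h2
  replace h1 := h1 (mem_univ x)
  have n0 : ∀ᵐ w ∂μ, w ≠ 0 := hμ.mono fun w hw => norm_pos_iff.1 (one_pos.trans_le hw.1)
  have h3 : ∀ᵐ w ∂μ, DifferentiableAt ℝ f (x, w) := by
    filter_upwards [ac.ae_le h2, n0] with w hw w0 using hw w0
  have rot : ∀ e, ∃ O : ℝ → V ≃ₗᵢ[ℝ] V, (∀ a, O 0 a = a) ∧
      ∀ a, HasDerivAt (fun s => O s a) ((-m.om (F x) (fderiv ℝ F x e)) a) 0 := fun e => by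
    obtain ⟨O, o0, -, o1⟩ := jc.par (F x, m.S (F x) (fderiv ℝ F x e))
    refine ⟨O, o0, fun a => ?_⟩
    have := o1 a 0
    rwa [o0, MF.w, ok.zero, ok.RS] at this
  obtain ⟨l, hl⟩ : ∃ l : V → V →L[ℝ] ℝ, ∀ w e,
      l w e = fderiv ℝ f (x, w) (e, (-m.om (F x) (fderiv ℝ F x e)) w) :=
    ⟨fun w => (fderiv ℝ f (x, w)).comp ((ContinuousLinearMap.id ℝ V).prod
      (-((m.om (F x)).flip w).comp (fderiv ℝ F x))), fun w e => by simp⟩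
  refine ⟨h1, l, fun e => ?_, ?_⟩
  · obtain ⟨O, o0, o1⟩ := rot e
    simp only [hl]
    exact dom (f := f) hu x e μ hμ inv o0 o1 (fun y => hz y) h3
  filter_upwards [h3, n0] with w hw w0 Φ K hΦ e
  obtain ⟨O, o0, o1⟩ := rot e
  have c1 : HasFDerivAt f (fderiv ℝ f (x, w)) (x + (0 : ℝ) • e, O 0 w) := by
    rw [zero_smul, add_zero, o0]
    exact hw.hasFDerivAt
  have c2 := c1.comp_hasDerivAt (0 : ℝ) (curve x e o1 w)
  have c3 : HasDerivAt (fun s : ℝ => (F (x + s • e), O s (‖w‖⁻¹ • w)))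
      (fderiv ℝ F x e, (-m.om (F x) (fderiv ℝ F x e)) (‖w‖⁻¹ • w)) 0 := by
    have h4 : HasFDerivAt F (fderiv ℝ F x) (x + (0 : ℝ) • e) := by
      rw [zero_smul, add_zero]
      exact h1.hasFDerivAt
    have h5 := ((hasDerivAt_id (0 : ℝ)).smul_const e).const_add x
    rw [one_smul] at h5
    exact (h4.comp_hasDerivAt (0 : ℝ) h5).prodMk (o1 _)
  have e0 : (F (x + (0 : ℝ) • e), O 0 (‖w‖⁻¹ • w)) = (F x, ‖w‖⁻¹ • w) := by
    rw [zero_smul, add_zero, o0]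
  have c4 : HasFDerivAt Φ (fderiv ℝ Φ (F x, ‖w‖⁻¹ • w))
      (F (x + (0 : ℝ) • e), O 0 (‖w‖⁻¹ • w)) := e0 ▸ hΦ.1.hasFDerivAt
  have c5 := c4.comp_hasDerivAt (0 : ℝ) c3
  rw [hΦ.2.2.2 _ (by simp [MF.ver])] at c5
  have c6 := touch (N := N x e) c2 c5 (by simp [hf, o0, hΦ.2.1]) fun η hη => by
    have t1 := c3.continuousAt.tendsto
    rw [e0] at t1
    filter_upwards [hd x e η hη, t1.eventually hΦ.2.2.1] with s s1 s2
    have n1 : ‖O s (‖w‖⁻¹ • w)‖ = 1 := by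
      rw [LinearIsometryEquiv.norm_map]
      exact norm_smul_inv_norm (𝕜 := ℝ) w0
    have s3 := mov x (x + s • e) (F (x + s • e), O s (‖w‖⁻¹ • w)) n1
    have s4 := s2 n1
    simp only [hf, Function.comp, LinearIsometryEquiv.norm_map, ← map_smul]
    linarith
  have c7 : m.hor (F x, ‖w‖⁻¹ • w) (fderiv ℝ F x e,
    (-m.om (F x) (fderiv ℝ F x e)) (‖w‖⁻¹ • w)) = m.S (F x) (fderiv ℝ F x e) := rfl
  rw [c7, ← hl] at c6
  exact c6.trans (by linarith)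

end Pool.Agent.MP_3ee8cb_gt.DZJ
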