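import Pool.Agent.MP_3ee8cb_gt.CR.RNUC

/-! The linear algebra of the Jacobian estimate for a map defined by a barycentre equation. -/

namespace Pool.Agent.MP_3ee8cb_gt.DZJ

open Set MeasureTheory CR
open scoped RealInnerProductSpace

/-- The pointwise inequality, in coordinates. -/
theorem alg_pt {ι : Type*} [Fintype ι] [Nonempty ι] (r x z : ι → ℝ) (c ε : ℝ)
    (hr : ∀ i, 0 ≤ r i) (hc : 1 ≤ c) (hzx : ∑ i, z i * x i = 0)
    (hz : ∑ i, z i ^ 2 ≤ ε ^ 2 * (c - 1)) :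
    ∑ i, r i ^ 2 * x i ^ 2 - 2 * ε ^ 2 * ∑ i, (r i - 1) ^ 2 ≤
      c * ∑ i, r i ^ 2 * x i ^ 2 + ∑ i, r i ^ 2 * (z i * x i) := by
  classical
  set D : ℝ := ∑ i, (r i - 1) ^ 2 with hD
  have hD0 : 0 ≤ D := Finset.sum_nonneg fun i _ => sq_nonneg _
  obtain ⟨j, -, hj⟩ := Finset.exists_min_image Finset.univ r Finset.univ_nonempty
  have hδ : ∀ i, (r i - r j) ^ 2 ≤ 2 * D := fun i => by
    rcases eq_or_ne i j with h | h
    · rw [h, sub_self]
      nlinarith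
    · have h1 : (r i - 1) ^ 2 + (r j - 1) ^ 2 ≤ D :=
        Finset.add_le_sum (f := fun i => (r i - 1) ^ 2) (fun k _ => sq_nonneg _)
          (Finset.mem_univ i) (Finset.mem_univ j) h
      nlinarith [sq_nonneg (r i + r j - 2)]
  have hsh : ∑ i, r i ^ 2 * (z i * x i) = ∑ i, (r i ^ 2 - r j ^ 2) * (z i * x i) := by
    simp only [sub_mul, Finset.sum_sub_distrib, ← Finset.mul_sum, hzx, mul_zero, sub_zero]
  rcases hc.eq_or_lt with h1 | h1
  · have hz0 : ∀ i, z i = 0 := fun i => by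
      have h2 : z i ^ 2 ≤ ∑ i, z i ^ 2 :=
        Finset.single_le_sum (f := fun i => z i ^ 2) (fun k _ => sq_nonneg _) (Finset.mem_univ i)
      rw [← h1, sub_self, mul_zero] at hz
      exact pow_eq_zero_iff (two_ne_zero) |>.1 (le_antisymm (h2.trans hz) (sq_nonneg _))
    simp only [hz0, zero_mul, mul_zero, Finset.sum_const_zero, add_zero, ← h1, one_mul]
    nlinarith [mul_nonneg (sq_nonneg ε) hD0]
  · have hk : 0 < c - 1 := by linarith
    have hi : ∀ i, -((c - 1) * ((c - 1) * (r i ^ 2 * x i ^ 2)) + 2 * D * z i ^ 2) ≤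
        (c - 1) * ((r i ^ 2 - r j ^ 2) * (z i * x i)) := fun i => by
      have a1 : 0 ≤ r i - r j := sub_nonneg.2 (hj i (Finset.mem_univ i))
      have a2 : ((r i + r j) / 2) ^ 2 ≤ r i ^ 2 := by
        have := hr j
        nlinarith
      have a3 : (r i - r j) ^ 2 * z i ^ 2 ≤ 2 * D * z i ^ 2 :=
        mul_le_mul_of_nonneg_right (hδ i) (sq_nonneg _)
      have a4 : ((r i + r j) / 2) ^ 2 * ((c - 1) * x i) ^ 2 ≤ r i ^ 2 * ((c - 1) * x i) ^ 2 :=
        mul_le_mul_of_nonneg_right a2 (sq_nonneg _)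
      nlinarith [sq_nonneg ((r i + r j) / 2 * ((c - 1) * x i) + (r i - r j) * z i)]
    have hs := Finset.sum_le_sum fun i (_ : i ∈ Finset.univ) => hi i
    simp only [Finset.sum_neg_distrib, Finset.sum_add_distrib, ← Finset.mul_sum] at hs
    rw [hsh]
    have h3 : 2 * D * ∑ i, z i ^ 2 ≤ 2 * D * (ε ^ 2 * (c - 1)) :=
      mul_le_mul_of_nonneg_left hz (by linarith)
    have h4 : (c - 1) * (-((c - 1) * ∑ i, r i ^ 2 * x i ^ 2) - 2 * ε ^ 2 * D) ≤
        (c - 1) * ∑ i, (r i ^ 2 - r j ^ 2) * (z i * x i) := by nlinarith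
    have h5 := le_of_mul_le_mul_left h4 hk
    nlinarith

/-- A trace bound with a small defect bounds the product. -/
theorem alg_log {ι : Type*} [Fintype ι] (r : ι → ℝ) (hr : ∀ i, 0 < r i)
    (h : ∑ i, r i ^ 2 ≤ Fintype.card ι + (∑ i, (r i - 1) ^ 2) / 2) :
    ∏ i, r i ^ 2 ≤ 1 ∧ (∏ i, r i ^ 2 = 1 → ∀ i, r i = 1) := by
  have hD0 : 0 ≤ ∑ i, (r i - 1) ^ 2 := Finset.sum_nonneg fun i _ => sq_nonneg _
  have hp : 0 < ∏ i, r i ^ 2 := Finset.prod_pos fun i _ => pow_pos (hr i) 2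
  have h1 : Real.log (∏ i, r i ^ 2) ≤ -((∑ i, (r i - 1) ^ 2) / 2) := by
    rw [Real.log_prod fun i _ => (pow_pos (hr i) 2).ne']
    have h2 : ∀ i, Real.log (r i ^ 2) ≤ r i ^ 2 - 1 - (r i - 1) ^ 2 := fun i => by
      have := Real.log_le_sub_one_of_pos (hr i)
      rw [Real.log_pow]
      push_cast
      nlinarith
    have h3 := Finset.sum_le_sum fun i (_ : i ∈ Finset.univ) => h2 i
    simp only [Finset.sum_sub_distrib, Finset.sum_const, Finset.card_univ, nsmul_eq_mul,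
      mul_one] at h3
    linarith
  refine ⟨(Real.log_nonpos_iff hp.le).1 (by linarith), fun h0 i => ?_⟩
  rw [h0, Real.log_one] at h1
  have h2 : (r i - 1) ^ 2 ≤ ∑ i, (r i - 1) ^ 2 :=
    Finset.single_le_sum (f := fun i => (r i - 1) ^ 2) (fun k _ => sq_nonneg _)
      (Finset.mem_univ i)
  have h3 : (r i - 1) ^ 2 = 0 := le_antisymm (by linarith) (sq_nonneg _)
  exact sub_eq_zero.1 (pow_eq_zero_iff two_ne_zero |>.1 h3)

/-- The functional `l` lies below `‖e‖ - ⟪c • u + ζ, L e⟫`, with `ζ ⟂ u` small. -/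
def Tch {n : ℕ} (L : E n →L[ℝ] E n) (ε : ℝ) (u : E n) (l : E n →L[ℝ] ℝ) (c : ℝ) : Prop :=
  1 ≤ c ∧ ∃ ζ : E n, ⟪ζ, u⟫ = 0 ∧ ‖ζ‖ ^ 2 ≤ ε ^ 2 * (c - 1) ∧
    ∀ e : E n, l e ≤ ‖e‖ - ⟪c • u + ζ, L e⟫

/-- The touching inequality evaluated at the rotated direction. -/
theorem tch_eval {n : ℕ} {L : E n →L[ℝ] E n} {ε : ℝ} {u : E n} {l : E n →L[ℝ] ℝ} {c : ℝ}
    (e f : OrthonormalBasis (Fin n) ℝ (E n)) (r : Fin n → ℝ)
    (hL : ∀ i, L (e i) = r i ^ 2 • f i) (hu : ‖u‖ = 1) (h : Tch L ε u l c) :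
    ∃ z : Fin n → ℝ, ∑ i, z i * ⟪u, f i⟫ = 0 ∧ ∑ i, z i ^ 2 ≤ ε ^ 2 * (c - 1) ∧
      ∑ i, l (e i) * ⟪u, f i⟫ ≤
        1 - (c * ∑ i, r i ^ 2 * ⟪u, f i⟫ ^ 2 + ∑ i, r i ^ 2 * (z i * ⟪u, f i⟫)) := by
  obtain ⟨-, ζ, h1, h2, h3⟩ := h
  refine ⟨fun i => ⟪ζ, f i⟫, ?_, ?_, ?_⟩
  · rw [← h1, ← f.sum_inner_mul_inner ζ u]
    exact Finset.sum_congr rfl fun i _ => by rw [real_inner_comm u (f i)]
  · rw [f.sum_sq_inner_left ζ]
    exact h2
  · have h4 := h3 (∑ i, ⟪u, f i⟫ • e i)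
    have h5 : ‖∑ i, ⟪u, f i⟫ • e i‖ = 1 := by
      have h6 : ‖∑ i, ⟪u, f i⟫ • e i‖ ^ 2 = 1 := by
        rw [← e.sum_sq_inner_left]
        simp only [e.orthonormal.inner_left_fintype, conj_trivial]
        rw [f.sum_sq_inner_left u, hu, one_pow]
      exact (pow_eq_one_iff_of_nonneg (norm_nonneg _) two_ne_zero).1 h6
    rw [h5, map_sum, map_sum, inner_sum] at h4
    simp only [map_smul, hL, smul_eq_mul, inner_add_left, real_inner_smul_left,
      real_inner_smul_right] at h4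
    rw [Finset.mul_sum, ← Finset.sum_add_distrib]
    refine le_trans (le_of_eq ?_) (h4.trans (le_of_eq ?_))
    · exact Finset.sum_congr rfl fun i _ => mul_comm _ _
    · congr 1
      exact Finset.sum_congr rfl fun i _ => by ring

/-- The Jacobian estimate: an isotropic family of touching functionals with vanishing first
moment forces `|det L| ≤ 1`, with rigidity in the case of equality. -/
theorem alg {n : ℕ} {W : Type*} [MeasurableSpace W] (μ : Measure W) [IsFiniteMeasure μ]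
    (u : W → E n) (l : W → E n →L[ℝ] ℝ) (L : E n →L[ℝ] E n) (ε : ℝ)
    (hu : ∀ᵐ w ∂μ, ‖u w‖ = 1) (hum : AEStronglyMeasurable u μ)
    (hiso : ∀ a b : E n, ∫ w, ⟪u w, a⟫ * ⟪u w, b⟫ ∂μ = ⟪a, b⟫)
    (hint : ∀ e a : E n, Integrable (fun w => l w e * ⟪u w, a⟫) μ)
    (hzero : ∀ e a : E n, ∫ w, l w e * ⟪u w, a⟫ ∂μ = 0)
    (hε : n * ε ^ 2 ≤ 1 / 4) (hok : ∀ᵐ w ∂μ, ∃ c, Tch L ε (u w) (l w) c) :
    |L.det| ≤ 1 ∧ (|L.det| = 1 → (∀ e, ‖L e‖ = ‖e‖) ∧
      ∀ᵐ w ∂μ, ∀ c, Tch L ε (u w) (l w) c → c = 1) := by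
  rcases eq_or_ne L.det 0 with h0 | h0
  · rw [h0, abs_zero]
    exact ⟨zero_le_one, fun h => absurd h zero_ne_one⟩
  obtain ⟨e, f, s, hs, hL, hdet⟩ := nuc_svd L h0
  obtain ⟨r, hr, hrs⟩ : ∃ r : Fin n → ℝ, (∀ i, 0 < r i) ∧ ∀ i, s i = r i ^ 2 :=
    ⟨fun i => √(s i), fun i => Real.sqrt_pos.2 (hs i), fun i => (Real.sq_sqrt (hs i).le).symm⟩
  simp only [hrs] at hL hdet
  set D : ℝ := ∑ i, (r i - 1) ^ 2 with hD
  have hD0 : 0 ≤ D := Finset.sum_nonneg fun i _ => sq_nonneg _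
  have hx : ∀ i, Integrable (fun w => ⟪u w, f i⟫ ^ 2) μ := fun i => by
    refine Integrable.of_bound ((hum.inner aestronglyMeasurable_const).pow 2) 1 ?_
    filter_upwards [hu] with w hw
    have h1 := abs_real_inner_le_norm (u w) (f i)
    rw [hw, f.orthonormal.1 i, mul_one] at h1
    rw [norm_pow, Real.norm_eq_abs]
    exact pow_le_one₀ (abs_nonneg _) h1
  have hx1 : ∀ i, ∫ w, ⟪u w, f i⟫ ^ 2 ∂μ = 1 := fun i => by
    simp only [sq]
    rw [hiso, real_inner_self_eq_norm_sq, f.orthonormal.1 i, one_pow]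
  have hm : μ.real univ = n := by
    have h1 : ∫ w, ∑ i, ⟪u w, f i⟫ ^ 2 ∂μ = ∫ _w, (1 : ℝ) ∂μ := by
      refine integral_congr_ae ?_
      filter_upwards [hu] with w hw
      rw [f.sum_sq_inner_left, hw, one_pow]
    rw [integral_finsetSum _ fun i _ => hx i] at h1
    simpa [hx1] using h1.symm
  have hgi : Integrable (fun w => ∑ i, l w (e i) * ⟪u w, f i⟫) μ :=
    integrable_finsetSum _ fun i _ => hint _ _
  have hg0 : ∫ w, ∑ i, l w (e i) * ⟪u w, f i⟫ ∂μ = 0 := by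
    rw [integral_finsetSum _ fun i _ => hint _ _]
    simp only [hzero, Finset.sum_const_zero]
  have hai : Integrable (fun w => ∑ i, r i ^ 2 * ⟪u w, f i⟫ ^ 2) μ :=
    integrable_finsetSum _ fun i _ => (hx i).const_mul _
  have ha : ∫ w, ∑ i, r i ^ 2 * ⟪u w, f i⟫ ^ 2 ∂μ = ∑ i, r i ^ 2 := by
    rw [integral_finsetSum _ fun i _ => (hx i).const_mul _]
    simp only [integral_const_mul, hx1, mul_one]
  have hle : ∀ᵐ w ∂μ, ∑ i, l w (e i) * ⟪u w, f i⟫ ≤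
      (1 + 2 * ε ^ 2 * D) - ∑ i, r i ^ 2 * ⟪u w, f i⟫ ^ 2 := by
    filter_upwards [hu, hok] with w hw ⟨c, hc⟩
    obtain ⟨z, h1, h2, h3⟩ := tch_eval e f r hL hw hc
    have : Nonempty (Fin n) := by
      have h4 : ∑ i, ⟪u w, f i⟫ ^ 2 ≠ 0 := by
        rw [f.sum_sq_inner_left, hw]
        norm_num
      exact ⟨(Finset.nonempty_of_sum_ne_zero h4).choose⟩
    have h5 := alg_pt r (fun i => ⟪u w, f i⟫) z c ε (fun i => (hr i).le) hc.1 h1 h2
    linarith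
  have htr := integral_mono_ae hgi ((integrable_const _).sub hai) hle
  rw [hg0] at htr
  simp only [Pi.sub_apply] at htr
  rw [integral_sub (integrable_const _) hai, ha, integral_const, hm, smul_eq_mul] at htr
  have hlog := alg_log r hr (by
    rw [Fintype.card_fin]
    nlinarith [mul_le_mul_of_nonneg_right hε hD0])
  rw [hdet]
  refine ⟨hlog.1, fun h1 => ?_⟩
  have hr1 := hlog.2 h1
  have hL1 : ∀ i, L (e i) = f i := fun i => by rw [hL, hr1, one_pow, one_smul]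
  constructor
  · intro v
    have h2 : L v = ∑ i, ⟪e i, v⟫ • f i := by
      conv_lhs => rw [← e.sum_repr' v]
      simp only [map_sum, map_smul, hL1]
    have h3 : ‖L v‖ ^ 2 = ‖v‖ ^ 2 := by
      rw [h2, ← f.sum_sq_inner_right, ← e.sum_sq_inner_right v]
      simp only [f.orthonormal.inner_right_fintype]
    exact (pow_left_inj₀ (norm_nonneg _) (norm_nonneg _) two_ne_zero).1 h3
  · have hc1 : ∀ w, ‖u w‖ = 1 → ∀ c, Tch L ε (u w) (l w) c →
        ∑ i, l w (e i) * ⟪u w, f i⟫ ≤ 1 - c := fun w hw c hc => by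
      obtain ⟨z, h2, -, h3⟩ := tch_eval e f r hL hw hc
      simp only [hr1, one_pow, one_mul] at h3
      rwa [h2, f.sum_sq_inner_left, hw, one_pow, mul_one, add_zero] at h3
    have hneg : 0 ≤ᵐ[μ] fun w => -∑ i, l w (e i) * ⟪u w, f i⟫ := by
      filter_upwards [hu, hok] with w hw ⟨c, hc⟩
      have := hc1 w hw c hc
      have := hc.1
      simp only [Pi.zero_apply]
      linarith
    have hz := (integral_eq_zero_iff_of_nonneg_ae hneg hgi.neg).1
      (by rw [integral_neg, hg0, neg_zero])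
    filter_upwards [hu, hz] with w hw h2 c hc
    have h3 := hc1 w hw c hc
    simp only [Pi.zero_apply, neg_eq_zero] at h2
    have := hc.1
    linarith

end Pool.Agent.MP_3ee8cb_gt.DZJ
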