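import Pool.Agent.MP_3ee8cb_gt.CR.Defs

/-! Rotation invariant measures: isotropy, and the normalised measure of a spherical shell. -/

namespace Pool.Agent.MP_3ee8cb_gt.DZJ

open Set MeasureTheory Metric CR
open scoped RealInnerProductSpace ENNReal

variable {n : ℕ}

theorem hat_meas : Measurable fun w : E n => ‖w‖⁻¹ • w := by fun_prop

theorem hat_norm {w : E n} (h : w ≠ 0) : ‖‖w‖⁻¹ • w‖ = 1 := norm_smul_inv_norm h

theorem hat_le (w : E n) : ‖‖w‖⁻¹ • w‖ ≤ 1 := by
  rcases eq_or_ne w 0 with h | h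
  · simp [h]
  · exact (hat_norm h).le

theorem hat_int (μ : Measure (E n)) [IsFiniteMeasure μ] (a b : E n) :
    Integrable (fun w : E n => ⟪‖w‖⁻¹ • w, a⟫ * ⟪‖w‖⁻¹ • w, b⟫) μ := by
  refine Integrable.of_bound (Measurable.aestronglyMeasurable (by fun_prop)) (‖a‖ * ‖b‖)
    (.of_forall fun w => ?_)
  have h : ∀ c : E n, ‖⟪‖w‖⁻¹ • w, c⟫‖ ≤ ‖c‖ := fun c =>
    (norm_inner_le_norm _ _).trans (mul_le_of_le_one_left (norm_nonneg _) (hat_le w))
  rw [norm_mul]
  exact mul_le_mul (h a) (h b) (norm_nonneg _) (norm_nonneg _)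

/-- A rotation invariant measure of total mass `n` is isotropic. -/
theorem iso_of_inv (μ : Measure (E n)) [IsFiniteMeasure μ]
    (hinv : ∀ R : E n ≃ₗᵢ[ℝ] E n, MeasurePreserving R μ μ) (h0 : ∀ᵐ w ∂μ, w ≠ 0)
    (hm : μ.real univ = n) (a b : E n) :
    ∫ w, ⟪‖w‖⁻¹ • w, a⟫ * ⟪‖w‖⁻¹ • w, b⟫ ∂μ = ⟪a, b⟫ := by
  set Q : E n → ℝ := fun c => ∫ w, ⟪‖w‖⁻¹ • w, c⟫ * ⟪‖w‖⁻¹ • w, c⟫ ∂μ with hQ
  have h1 : ∀ c d : E n, ‖c‖ = ‖d‖ → Q c = Q d := fun c d h => by
    let R := (ℝ ∙ (c - d))ᗮ.reflection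
    have hR : R c = d := Submodule.reflection_sub h
    have := (hinv R).integral_comp R.toHomeomorph.measurableEmbedding
      fun w => ⟪‖w‖⁻¹ • w, d⟫ * ⟪‖w‖⁻¹ • w, d⟫
    simp only [hQ]
    rw [← this, ← hR]
    simp only [LinearIsometryEquiv.norm_map, ← map_smul, LinearIsometryEquiv.inner_map_map]
  have h2 : ∀ c : E n, Q c = ‖c‖ ^ 2 := fun c => by
    let f := EuclideanSpace.basisFun (Fin n) ℝ
    have h3 : ∑ i, Q (‖c‖ • f i) = n * ‖c‖ ^ 2 := by
      simp only [hQ]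
      rw [← integral_finsetSum _ fun i _ => hat_int μ _ _, ← hm, ← smul_eq_mul, ← integral_const]
      refine integral_congr_ae ?_
      filter_upwards [h0] with w hw
      have h4 := f.sum_sq_inner_left (‖w‖⁻¹ • w)
      rw [hat_norm hw, one_pow] at h4
      rw [← mul_one (‖c‖ ^ 2), ← h4, Finset.mul_sum]
      exact Finset.sum_congr rfl fun i _ => by rw [real_inner_smul_right]; ring
    have h5 : ∀ i, Q (‖c‖ • f i) = Q c := fun i =>
      h1 _ _ (by rw [norm_smul, norm_norm, f.orthonormal.1 i, mul_one])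
    simp only [h5, Finset.sum_const, Finset.card_univ, Fintype.card_fin, nsmul_eq_mul] at h3
    rcases Nat.eq_zero_or_pos n with hn | hn
    · subst hn
      simp [hQ, Subsingleton.elim c 0]
    · exact mul_left_cancel₀ (Nat.cast_pos.2 hn).ne' h3
  have h6 : Q (a + b) - Q (a - b) = 4 * ∫ w, ⟪‖w‖⁻¹ • w, a⟫ * ⟪‖w‖⁻¹ • w, b⟫ ∂μ := by
    simp only [hQ]
    rw [← integral_sub (hat_int μ _ _) (hat_int μ _ _), ← integral_const_mul]
    refine integral_congr_ae (.of_forall fun w => ?_)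
    simp only [inner_add_right, inner_sub_right]
    ring
  rw [h2, h2, norm_add_sq_real, norm_sub_sq_real] at h6
  linarith

/-- The shell between the spheres of radius one and two. -/
def Sh (n : ℕ) : Set (E n) := {w | 1 ≤ ‖w‖ ∧ ‖w‖ ≤ 2}

theorem sh_closed : IsClosed (Sh n) :=
  (isClosed_le continuous_const continuous_norm).inter
    (isClosed_le continuous_norm continuous_const)

theorem sh_compact : IsCompact (Sh n) :=
  (isCompact_closedBall (0 : E n) 2).of_isClosed_subset sh_closed fun _ h =>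
    mem_closedBall_zero_iff.2 h.2

theorem sh_fin : volume (Sh n) ≠ ⊤ := sh_compact.measure_lt_top.ne

theorem sh_ne {w : E n} (h : w ∈ Sh n) : w ≠ 0 := fun h0 => by
  have := h.1
  rw [h0, norm_zero] at this
  linarith

/-- An open set of directions containing a unit vector has positive measure in the shell. -/
theorem sh_open {U : Set (E n)} (hU : IsOpen U) {v : E n} (hv : ‖v‖ = 1) (h : v ∈ U) :
    volume ({w : E n | ‖w‖⁻¹ • w ∈ U} ∩ Sh n) ≠ 0 := by
  have hc : ContinuousOn (fun w : E n => ‖w‖⁻¹ • w) {w | 1 < ‖w‖ ∧ ‖w‖ < 2} :=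
    (continuousOn_id.norm.inv₀ fun w hw => (zero_lt_one.trans hw.1).ne').smul continuousOn_id
  have ho := hc.isOpen_inter_preimage ((isOpen_lt continuous_const continuous_norm).inter
    (isOpen_lt continuous_norm continuous_const)) hU
  have hn : ‖(3 / 2 : ℝ) • v‖ = 3 / 2 := by
    rw [norm_smul, hv, mul_one, Real.norm_of_nonneg (by norm_num)]
  refine fun h0 => ho.measure_ne_zero volume ⟨(3 / 2 : ℝ) • v, ?_, ?_⟩
    (measure_mono_null (fun w hw => mem_inter hw.2 (And.intro hw.1.1.le hw.1.2.le)) h0)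
  · constructor <;> rw [hn] <;> norm_num
  · rw [mem_preimage, hn, smul_smul]
    norm_num
    exact h

theorem sh_pos (hn : 0 < n) : volume (Sh n) ≠ 0 := by
  simpa using sh_open isOpen_univ ((EuclideanSpace.basisFun (Fin n) ℝ).orthonormal.1 ⟨0, hn⟩)
    (mem_univ _)

/-- Lebesgue measure on the shell, normalised to total mass `n`. -/
noncomputable def mSh (n : ℕ) : Measure (E n) :=
  ((n : ℝ≥0∞) / volume (Sh n)) • volume.restrict (Sh n)

theorem mSh_univ : mSh n univ = n := by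
  rcases Nat.eq_zero_or_pos n with hn | hn
  · subst hn
    simp [mSh]
  · rw [mSh, Measure.smul_apply, Measure.restrict_apply_univ, smul_eq_mul,
      ENNReal.div_mul_cancel (sh_pos hn) sh_fin]

instance : IsFiniteMeasure (mSh n) := ⟨by rw [mSh_univ]; exact ENNReal.natCast_lt_top n⟩

theorem mSh_real : (mSh n).real univ = n := by simp [Measure.real, mSh_univ]

theorem mSh_mem : ∀ᵐ w ∂mSh n, w ∈ Sh n :=
  Measure.ae_smul_measure (ae_restrict_mem sh_closed.measurableSet) _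

theorem mSh_ae {p : E n → Prop} (h : ∀ᵐ w : E n, p w) : ∀ᵐ w ∂mSh n, p w :=
  Measure.ae_smul_measure (ae_restrict_of_ae h) _

theorem mSh_unit : ∀ᵐ w ∂mSh n, ‖‖w‖⁻¹ • w‖ = 1 := mSh_mem.mono fun _ h => hat_norm (sh_ne h)

theorem mSh_inv (R : E n ≃ₗᵢ[ℝ] E n) : MeasurePreserving R (mSh n) (mSh n) := by
  have h := R.measurePreserving.restrict_preimage (sh_closed (n := n)).measurableSet
  have e : R ⁻¹' Sh n = Sh n := by
    ext w
    simp [Sh]
  rw [e] at h
  exact h.smul_measure _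

theorem mSh_iso (a b : E n) : ∫ w, ⟪‖w‖⁻¹ • w, a⟫ * ⟪‖w‖⁻¹ • w, b⟫ ∂mSh n = ⟪a, b⟫ :=
  iso_of_inv _ mSh_inv (mSh_mem.mono fun _ h => sh_ne h) mSh_real a b

/-- A closed set containing almost every direction contains every unit vector. -/
theorem mSh_full {A : Set (E n)} (hA : IsClosed A) (h : ∀ᵐ w ∂mSh n, ‖w‖⁻¹ • w ∈ A) {v : E n}
    (hv : ‖v‖ = 1) : v ∈ A := by
  by_contra hc
  have hn : n ≠ 0 := fun h0 => by
    subst h0
    simp [Subsingleton.elim v 0] at hv
  have h1 : ((n : ℝ≥0∞) / volume (Sh n)) ≠ 0 :=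
    ENNReal.div_ne_zero.2 ⟨Nat.cast_ne_zero.2 hn, sh_fin⟩
  rw [mSh, Measure.ae_ennreal_smul_measure_iff h1, ae_iff,
    Measure.restrict_apply' sh_closed.measurableSet] at h
  exact sh_open hA.isOpen_compl hv hc h

/-- The mean direction vanishes. -/
theorem mSh_odd : ∫ w, ‖w‖⁻¹ • w ∂mSh n = 0 := by
  have h := (mSh_inv (n := n) (LinearIsometryEquiv.neg ℝ)).integral_comp
    (LinearIsometryEquiv.neg ℝ (E := E n)).toHomeomorph.measurableEmbedding
    fun w : E n => ‖w‖⁻¹ • w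
  simp only [LinearIsometryEquiv.coe_neg, norm_neg, smul_neg, integral_neg] at h
  linear_combination (norm := module) (-1 / 2 : ℝ) • h

end Pool.Agent.MP_3ee8cb_gt.DZJ
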